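import Pool.Agent.P.MP_efe325_an.SharpC

set_option autoImplicit false

namespace Pool.Agent.Results.MP_efe325_an.SharpConstant

open Pool.Agent.P.MP_efe325_an MeasureTheory
open scoped ENNReal NNReal

/-- Let `H` be a reproducing kernel Hilbert space on pairs of vertices of the dyadic tree with
kernel `|k|`. For every positive measure `μ` on the vertices, condition (a') with constant `C` gives
condition (b) with constant `2 C`, and (b) with constant `C` gives (a') with constant `C`; the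
factor `2` is the least possible. -/
theorem result {𝕜 : Type*} [RCLike 𝕜] [MeasurableSpace (List Bool)]
    [DiscreteMeasurableSpace (List Bool)]
    (H : Type*) [NormedAddCommGroup H] [InnerProductSpace 𝕜 H] [CompleteSpace H]
    [RKHS 𝕜 H (List Bool × List Bool) 𝕜]
    (hH : ∀ p q, RKHS.kernel H p q 1 = ((|kern q p| : ℝ) : 𝕜)) :
    IsLeast {K : ℝ≥0 | ∀ (μ : Measure (List Bool)) (C : ℝ≥0),
      ((∀ F : Option (List Bool) → 𝕜,
          ∫⁻ p, ‖F (some p.1) - F (some p.2)‖ₑ ^ 2 ∂(μ.prod μ) ≤ C * ∑' z, ‖grad F z‖ₑ ^ 2) →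
        ∀ G : H, ∫⁻ p, ‖G p‖ₑ ^ 2 ∂(μ.prod μ) ≤ K * C * ‖G‖ₑ ^ 2) ∧
      ((∀ G : H, ∫⁻ p, ‖G p‖ₑ ^ 2 ∂(μ.prod μ) ≤ C * ‖G‖ₑ ^ 2) →
        ∀ F : Option (List Bool) → 𝕜,
          ∫⁻ p, ‖F (some p.1) - F (some p.2)‖ₑ ^ 2 ∂(μ.prod μ) ≤ C * ∑' z, ‖grad F z‖ₑ ^ 2)} 2 :=
  ⟨fun _ _ => ⟨fun hA G => condB_two hH hA G, fun hB => condA_of_condB hH hB⟩,
    fun _ hK => two_le hH fun μ C hA => (hK μ C).1 hA⟩

end Pool.Agent.Results.MP_efe325_an.SharpConstant
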